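import Pool.Agent.H48.ER.Targets

/-!
# MP_816b90_co: row D3B, the even prism
-/

set_option autoImplicit false

namespace Pool.Agent.H4.ER

open Pool.Agent.H48.ER

/-- a pyramid given by three explicit paths -/
theorem pyr3 (hPYR : T_PYR) {V : Type} {G : SimpleGraph V} (hG : NOH G) {c b1 b2 b3 : V}
    {m1 m2 m3 : ℕ} {R1 R2 R3 : Set V} (p1 : IP G m1 c b1 R1) (p2 : IP G m2 c b2 R2)
    (p3 : IP G m3 c b3 R3) (o1 : 1 ≤ m1) (o2 : 1 ≤ m2) (o3 : 1 ≤ m3)
    (n12 : ¬ (m1 = 1 ∧ m2 = 1)) (n13 : ¬ (m1 = 1 ∧ m3 = 1)) (n23 : ¬ (m2 = 1 ∧ m3 = 1))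
    (x12 : ∀ u ∈ R1, ∀ v ∈ R2, u ≠ c → v ≠ c → u ≠ v ∧ (G.Adj u v ↔ u = b1 ∧ v = b2))
    (x13 : ∀ u ∈ R1, ∀ v ∈ R3, u ≠ c → v ≠ c → u ≠ v ∧ (G.Adj u v ↔ u = b1 ∧ v = b3))
    (x23 : ∀ u ∈ R2, ∀ v ∈ R3, u ≠ c → v ≠ c → u ≠ v ∧ (G.Adj u v ↔ u = b2 ∧ v = b3)) :
    False := by
  refine hPYR V G c ![b1, b2, b3] ![m1, m2, m3] ![R1, R2, R3] hG ?_ ?_ ?_ ?_
  · intro i
    fin_cases i <;> assumption
  · intro i
    fin_cases i <;> assumption
  · intro i j hij
    fin_cases i <;> fin_cases j <;>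
      first
        | exact absurd rfl hij
        | exact n12
        | exact n13
        | exact n23
        | exact fun h => n12 ⟨h.2, h.1⟩
        | exact fun h => n13 ⟨h.2, h.1⟩
        | exact fun h => n23 ⟨h.2, h.1⟩
  · have s : ∀ {A B : Set V} {p q : V},
        (∀ u ∈ A, ∀ v ∈ B, u ≠ c → v ≠ c → u ≠ v ∧ (G.Adj u v ↔ u = p ∧ v = q)) →
        ∀ u ∈ B, ∀ v ∈ A, u ≠ c → v ≠ c → u ≠ v ∧ (G.Adj u v ↔ u = q ∧ v = p) := by
      intro A B p q h u hu v hv h1 h2
      obtain ⟨h3, h4⟩ := h v hv u hu h2 h1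
      refine ⟨h3.symm, ?_⟩
      rw [SimpleGraph.adj_comm, h4]
      exact and_comm
    have s12 := s x12
    have s13 := s x13
    have s23 := s x23
    intro i j hij
    fin_cases i <;> fin_cases j <;>
      first
        | exact absurd rfl hij
        | exact x12
        | exact x13
        | exact x23
        | exact s12
        | exact s13
        | exact s23

/-- a vertex of a path with an edge has a neighbour on the path -/
theorem has_nb {V : Type} {G : SimpleGraph V} {n : ℕ} {x y w : V} {R : Set V}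
    (h : IP G n x y R) (hn : 1 ≤ n) (hw : w ∈ R) : ∃ q ∈ R, G.Adj w q := by
  obtain ⟨g, g0, gn, gi, ga, hR⟩ := h
  rw [hR] at hw
  obtain ⟨i, hi, rfl⟩ := hw
  rw [hR]
  rcases Nat.lt_or_ge i n with h1 | h1
  · exact ⟨g (i + 1), ⟨i + 1, by omega, rfl⟩, (ga i (i + 1) hi (by omega)).2 (Or.inl rfl)⟩
  · exact ⟨g (i - 1), ⟨i - 1, by omega, rfl⟩, (ga i (i - 1) hi (by omega)).2 (Or.inr (by omega))⟩

theorem pf_D3B (hFST : T_FST) (hTRI : T_TRI) (hPYR : T_PYR) (hEVN : T_EVN) (hD3A : T_D3A) :
    T_D3B := by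
  intro V G v x y z hG hG' hv hxy hxz hyz nxz nyz ex ey
  obtain ⟨n1, Q1, hQ1, h2n1, he1, hvQ1, hxQ1, hxo⟩ := hD3A V G v x y z hG hv hxy hxz hyz nxz ex
  obtain ⟨n2, Q2, hQ2, h2n2, he2, hvQ2, hyQ2, hyo⟩ := hD3A V G v y x z hG
    (fun w => by rw [hv w]; constructor <;> rintro (h | h | h) <;> simp [h]) hxy.symm hyz hxz nyz ey
  have hvx : G.Adj v x := (hv x).2 (Or.inl rfl)
  have hvy : G.Adj v y := (hv y).2 (Or.inr (Or.inl rfl))
  have hvz : G.Adj v z := (hv z).2 (Or.inr (Or.inr rfl))
  have hzQ1 : z ∈ Q1 := hQ1.right_mem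
  have hyQ1 : y ∈ Q1 := hQ1.left_mem
  have hzQ2 : z ∈ Q2 := hQ2.right_mem
  -- the first vertex
  obtain ⟨i, j, c, C, C', hC, hC', hcZ, hij, hCC, -, -, hfirst⟩ :=
    hFST V G n2 x z Q2 {c | (∃ q ∈ Q1, G.Adj c q) ∧ c ≠ x} hQ2
      ⟨z, hzQ2, has_nb hQ1 (by omega) hzQ1, nxz.symm⟩
  obtain ⟨⟨q0, hq0, hcq0⟩, hcx⟩ := hcZ
  have hCQ2 : ∀ w ∈ C, w ∈ Q2 := fun w hw => by rw [← hCC]; exact Or.inl hw
  have hcC : c ∈ C := hC.right_mem
  have hxC : x ∈ C := hC.left_mem
  have hi1 : 1 ≤ i := by
    by_contra h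
    have h0 : i = 0 := by omega
    subst h0
    exact hcx hC.eq_of_zero.1.symm
  have honly : ∀ w ∈ C, ∀ q ∈ Q1, G.Adj w q → (w = x ∧ q = y) ∨ w = c := by
    intro w hw q hq hwq
    by_cases h : w = x
    · left
      subst h
      exact ⟨rfl, hxo q hq hwq⟩
    · right
      exact hfirst w hw ⟨⟨q, hq, hwq⟩, h⟩
  have hcy' : c ≠ y := fun h => hyQ2 (h ▸ hCQ2 c hcC)
  have hdis : ∀ w ∈ C, w ∉ Q1 := by
    intro w hw hwQ
    have hwx : w ≠ x := fun h => hxQ1 (h ▸ hwQ)
    have hwc : w = c := hfirst w hw ⟨has_nb hQ1 (by omega) hwQ, hwx⟩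
    subst hwc
    obtain ⟨c', hc', hcc'⟩ := has_nb hC hi1 hw
    rcases honly c' hc' w hwQ hcc'.symm with ⟨-, h⟩ | h
    · exact hcy' h
    · exact hcc'.ne h.symm
  have hcy : ¬ G.Adj c y := fun h => hcx (hyo c (hCQ2 c hcC) h.symm)
  have hcQ1 : c ∉ Q1 := hdis c hcC
  have hvC : v ∉ C := fun h => hvQ2 (hCQ2 v h)
  have hzC : z ∉ C := fun h => hdis z h hzQ1
  have hyC : y ∉ C := fun h => hdis y h hyQ1
  have hvadjC : ∀ w ∈ C, G.Adj v w → w = x := by
    intro w hw h
    rcases (hv w).1 h with h | h | h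
    · exact h
    · exact absurd (h ▸ hw) hyC
    · exact absurd (h ▸ hw) hzC
  rcases hTRI V G n1 y z c Q1 hQ1 hcQ1 ⟨q0, hq0, hcq0⟩ with
    ⟨g, i1, j1, R1, R2, hR1, hR2, hs, hun, hint, hne, hadj⟩ |
    ⟨g, g', i1, j1, R1, R2, hR1, hR2, hs, hun, hd, hxe, hadj⟩ |
    ⟨g, g', i1, j1, R1, R2, hR1, hR2, hs, hs1, hs2, hd, hne, had1, had2⟩
  · -- one neighbour
    exfalso
    have hR1Q : ∀ w ∈ R1, w ∈ Q1 := fun w hw => by rw [← hun]; exact Or.inl hw
    have hR2Q : ∀ w ∈ R2, w ∈ Q1 := fun w hw => by rw [← hun]; exact Or.inr hw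
    have hgQ : g ∈ Q1 := hR1Q g hR1.right_mem
    have hcg : G.Adj c g := (hadj g hgQ).2 rfl
    have hgy : g ≠ y := by
      intro h
      exact hcy (h ▸ hcg)
    have hyR2 : y ∉ R2 := by
      intro h
      have h1 : y ∈ R1 ∩ R2 := ⟨hR1.left_mem, h⟩
      rw [hint] at h1
      exact hgy (Set.mem_singleton_iff.1 h1).symm
    have hi1' : 1 ≤ i1 := by
      by_contra h
      have h0 : i1 = 0 := by omega
      subst h0
      exact hgy hR1.eq_of_zero.1.symm
    have p2 : IP G (i + 1) g x (insert g C) := by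
      refine hC.rev.cons (fun h => hdis g h hgQ) ?_
      intro w hw
      constructor
      · intro h
        rcases honly w hw g hgQ h.symm with ⟨-, h1⟩ | h1
        · exact absurd h1 hgy
        · exact h1
      · intro h
        rw [h]
        exact hcg.symm
    have p3 : IP G (j1 + 1) g v (insert v R2) := by
      refine hR2.snoc (fun h => hvQ1 (hR2Q v h)) ?_
      intro w hw
      constructor
      · intro h
        rcases (hv w).1 h with h1 | h1 | h1
        · exact absurd (hR2Q w hw) (h1 ▸ hxQ1)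
        · exact absurd (h1 ▸ hw) hyR2
        · exact h1
      · intro h
        rw [h]
        exact hvz
    refine pyr3 hPYR hG hR1.rev p2 p3 hi1' (by omega) (by omega) (by omega) (by omega) (by omega)
      ?_ ?_ ?_
    · rintro u hu w (hw | hw) hug hwg
      · exact absurd hw hwg
      · have huQ := hR1Q u hu
        refine ⟨fun h => hdis w hw (h ▸ huQ), ?_, ?_⟩
        · intro h
          rcases honly w hw u huQ h.symm with ⟨h1, h2⟩ | h1
          · exact ⟨h2, h1⟩
          · rw [h1] at h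
            exact absurd ((hadj u huQ).1 h.symm) hug
        · rintro ⟨h1, h2⟩
          rw [h1, h2]
          exact hxy.symm
    · rintro u hu w (hw | hw) hug hwg
      · have huQ := hR1Q u hu
        subst hw
        refine ⟨fun h => hvQ1 (h ▸ huQ), ?_, ?_⟩
        · intro h
          rcases (hv u).1 h.symm with h1 | h1 | h1
          · exact absurd huQ (h1 ▸ hxQ1)
          · exact ⟨h1, rfl⟩
          · have h2 : u ∈ R1 ∩ R2 := ⟨hu, h1 ▸ hR2.right_mem⟩
            rw [hint] at h2
            exact absurd (Set.mem_singleton_iff.1 h2) hug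
        · rintro ⟨h1, -⟩
          rw [h1]
          exact hvy.symm
      · refine ⟨?_, ?_, ?_⟩
        · intro h
          have h2 : w ∈ R1 ∩ R2 := ⟨h ▸ hu, hw⟩
          rw [hint] at h2
          exact hwg (Set.mem_singleton_iff.1 h2)
        · intro h
          exact absurd h (hne u ⟨hu, hug⟩ w ⟨hw, hwg⟩)
        · rintro ⟨-, h2⟩
          exact absurd (hR2Q w hw) (h2 ▸ hvQ1)
    · rintro u (hu | hu) w hw hug hwg
      · exact absurd hu hug
      · rcases hw with hw | hw
        · subst hw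
          refine ⟨fun h => hvC (h ▸ hu), ?_, ?_⟩
          · intro h
            exact ⟨hvadjC u hu h.symm, rfl⟩
          · rintro ⟨h1, -⟩
            rw [h1]
            exact hvx.symm
        · have hwQ := hR2Q w hw
          refine ⟨fun h => hdis u hu (h ▸ hwQ), ?_, ?_⟩
          · intro h
            rcases honly u hu w hwQ h with ⟨-, h2⟩ | h1
            · exact absurd (h2 ▸ hw) hyR2
            · rw [h1] at h
              exact absurd ((hadj w hwQ).1 h) hwg
          · rintro ⟨-, h2⟩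
            exact absurd hwQ (h2 ▸ hvQ1)
  · -- two adjacent neighbours
    have hR1Q : ∀ w ∈ R1, w ∈ Q1 := fun w hw => by rw [← hun]; exact Or.inl hw
    have hR2Q : ∀ w ∈ R2, w ∈ Q1 := fun w hw => by rw [← hun]; exact Or.inr hw
    have hdl : ∀ w, w ∈ R1 → w ∉ R2 := fun w h1 h2 => Set.disjoint_left.1 hd h1 h2
    have hgQ : g ∈ Q1 := hR1Q g hR1.right_mem
    have hgQ' : g' ∈ Q1 := hR2Q g' hR2.left_mem
    have hcg : G.Adj c g := (hadj g hgQ).2 (Or.inl rfl)
    have hcg' : G.Adj c g' := (hadj g' hgQ').2 (Or.inr rfl)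
    have hgy : g ≠ y := by
      intro h
      exact hcy (h ▸ hcg)
    have hi1' : 1 ≤ i1 := by
      by_contra h
      have h0 : i1 = 0 := by omega
      subst h0
      exact hgy hR1.eq_of_zero.1.symm
    have hyR2 : y ∉ R2 := hdl y hR1.left_mem
    have hzR1 : z ∉ R1 := fun h => hdl z h hR2.right_mem
    have p1 : IP G (j1 + 1) v g' (insert v R2) := by
      refine (hR2.snoc (fun h => hvQ1 (hR2Q v h)) ?_).rev
      intro w hw
      constructor
      · intro h
        rcases (hv w).1 h with h1 | h1 | h1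
        · exact absurd (hR2Q w hw) (h1 ▸ hxQ1)
        · exact absurd (h1 ▸ hw) hyR2
        · exact h1
      · intro h
        rw [h]
        exact hvz
    have hpr := mk3 (G := G) p1 hC hR1 (by omega) hi1 hi1' ?_ ?_ ?_ ?_ ?_ ?_
    · refine ⟨_, _, _, _, ⟨hpr, (hEVN V G _ _ _ _ hG hpr).2 hG'⟩, rfl, rfl, rfl, ?_⟩
      exact Or.inr hR2.right_mem
    · rw [Set.disjoint_left]
      rintro w (hw | hw) h
      · exact hvC (hw ▸ h)
      · exact hdis w h (hR2Q w hw)
    · rw [Set.disjoint_left]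
      rintro w (hw | hw) h
      · exact hvQ1 (hw ▸ hR1Q w h)
      · exact hdl w h hw
    · rw [Set.disjoint_left]
      intro w hw h
      exact hdis w hw (hR1Q w h)
    · rintro u (hu | hu) w hw
      · subst hu
        constructor
        · intro h
          exact Or.inl ⟨rfl, hvadjC w hw h⟩
        · rintro (⟨-, h⟩ | ⟨h, -⟩)
          · rw [h]; exact hvx
          · exact absurd (h ▸ hgQ') hvQ1
      · have huQ := hR2Q u hu
        constructor
        · intro h
          rcases honly w hw u huQ h.symm with ⟨-, h2⟩ | h1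
          · exact absurd (h2 ▸ hu) hyR2
          · rw [h1] at h
            rcases (hadj u huQ).1 h.symm with h3 | h3
            · exact absurd hu (hdl u (h3 ▸ hR1.right_mem))
            · exact Or.inr ⟨h3, h1⟩
        · rintro (⟨h, -⟩ | ⟨h, h'⟩)
          · exact absurd (h ▸ huQ) hvQ1
          · rw [h, h']
            exact hcg'.symm
    · rintro u (hu | hu) w hw
      · subst hu
        constructor
        · intro h
          rcases (hv w).1 h with h1 | h1 | h1
          · exact absurd (hR1Q w hw) (h1 ▸ hxQ1)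
          · exact Or.inl ⟨rfl, h1⟩
          · exact absurd (h1 ▸ hw) hzR1
        · rintro (⟨-, h⟩ | ⟨h, -⟩)
          · rw [h]; exact hvy
          · exact absurd (h ▸ hgQ') hvQ1
      · rw [SimpleGraph.adj_comm, hxe w hw u hu]
        constructor
        · rintro ⟨h1, h2⟩
          exact Or.inr ⟨h2, h1⟩
        · rintro (⟨h1, -⟩ | ⟨h1, h2⟩)
          · exact absurd (h1 ▸ hR2Q u hu) hvQ1
          · exact ⟨h2, h1⟩
    · intro u hu w hw
      have hwQ := hR1Q w hw
      constructor
      · intro h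
        rcases honly u hu w hwQ h with h1 | h1
        · exact Or.inl h1
        · rw [h1] at h
          rcases (hadj w hwQ).1 h with h3 | h3
          · exact Or.inr ⟨h1, h3⟩
          · exact absurd hR2.left_mem (h3 ▸ hdl w hw)
      · rintro (⟨h1, h2⟩ | ⟨h1, h2⟩)
        · rw [h1, h2]; exact hxy
        · rw [h1, h2]; exact hcg
  · -- two neighbours which are not adjacent
    exfalso
    have hdl : ∀ w, w ∈ R1 → w ∉ R2 := fun w h1 h2 => Set.disjoint_left.1 hd h1 h2
    have hcg : G.Adj c g := (had1 g hR1.right_mem).2 rfl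
    have hgy : g ≠ y := by
      intro h
      exact hcy (h ▸ hcg)
    have hi1' : 1 ≤ i1 := by
      by_contra h
      have h0 : i1 = 0 := by omega
      subst h0
      exact hgy hR1.eq_of_zero.1.symm
    have hyR2 : y ∉ R2 := hdl y hR1.left_mem
    have hzR1 : z ∉ R1 := fun h => hdl z h hR2.right_mem
    have hcv : c ≠ v := fun h => hvC (h ▸ hcC)
    have p2 : IP G (i1 + 1) c y (insert c R1) :=
      hR1.rev.cons (fun h => hcQ1 (hs1 h)) had1
    have p3' : IP G (j1 + 1) g' v (insert v R2) := by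
      refine hR2.snoc (fun h => hvQ1 (hs2 h)) ?_
      intro w hw
      constructor
      · intro h
        rcases (hv w).1 h with h1 | h1 | h1
        · exact absurd (hs2 hw) (h1 ▸ hxQ1)
        · exact absurd (h1 ▸ hw) hyR2
        · exact h1
      · intro h
        rw [h]
        exact hvz
    have p3 : IP G (j1 + 1 + 1) c v (insert c (insert v R2)) := by
      refine p3'.cons ?_ ?_
      · rintro (h | h)
        · exact hcv h
        · exact hcQ1 (hs2 h)
      · rintro w (hw | hw)
        · subst hw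
          constructor
          · intro h
            exact absurd (hvadjC c hcC h.symm) hcx
          · intro h
            exact absurd (h ▸ hs2 hR2.left_mem) hvQ1
        · exact had2 w hw
    refine pyr3 hPYR hG hC.rev p2 p3 hi1 (by omega) (by omega) (by omega) (by omega) (by omega)
      ?_ ?_ ?_
    · rintro u hu w (hw | hw) huc hwc
      · exact absurd hw hwc
      · have hwQ := hs1 hw
        refine ⟨fun h => hdis u hu (h ▸ hwQ), ?_, ?_⟩
        · intro h
          rcases honly u hu w hwQ h with h1 | h1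
          · exact h1
          · exact absurd h1 huc
        · rintro ⟨h1, h2⟩
          rw [h1, h2]
          exact hxy
    · rintro u hu w (hw | hw | hw) huc hwc
      · exact absurd hw hwc
      · subst hw
        refine ⟨fun h => hvC (h ▸ hu), ?_, ?_⟩
        · intro h
          exact ⟨hvadjC u hu h.symm, rfl⟩
        · rintro ⟨h1, -⟩
          rw [h1]
          exact hvx.symm
      · have hwQ := hs2 hw
        refine ⟨fun h => hdis u hu (h ▸ hwQ), ?_, ?_⟩
        · intro h
          rcases honly u hu w hwQ h with ⟨-, h2⟩ | h1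
          · exact absurd (h2 ▸ hw) hyR2
          · exact absurd h1 huc
        · rintro ⟨-, h2⟩
          exact absurd hwQ (h2 ▸ hvQ1)
    · rintro u (hu | hu) w hw huc hwc
      · exact absurd hu huc
      · have huQ := hs1 hu
        rcases hw with hw | hw | hw
        · exact absurd hw hwc
        · subst hw
          refine ⟨fun h => hvQ1 (h ▸ huQ), ?_, ?_⟩
          · intro h
            rcases (hv u).1 h.symm with h1 | h1 | h1
            · exact absurd huQ (h1 ▸ hxQ1)
            · exact ⟨h1, rfl⟩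
            · exact absurd (h1 ▸ hu) hzR1
          · rintro ⟨h1, -⟩
            rw [h1]
            exact hvy.symm
        · refine ⟨fun h => hdl u hu (h ▸ hw), ?_, ?_⟩
          · intro h
            exact absurd h (hne u hu w hw)
          · rintro ⟨-, h2⟩
            exact absurd (hs2 hw) (h2 ▸ hvQ1)

end Pool.Agent.H4.ER
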